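import Mathlib

/-!
# Percolation with constant freezing: the final measure need not satisfy the FKG inequality

We formalise percolation with constant freezing (PCF) on a finite simple graph as the
continuous-time Markov chain with the generator described in the problem, define the law of its
final configuration as the limit, as `t → ∞`, of the law at time `t`
(`exp (t • Q)` applied to the initial state), prove that this law exists and is unique for every
finite graph and every rate `α > 0`, and show that for the spider with three legs of length two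
the FKG inequality fails for every rate `0 < α ≤ 1 / 5000`.

The increasing events are `A = {some edge at the centre is open}` and
`B = {some edge at a leaf is open}`. For small `α` the complement of `A` has probability of order
`α` (freeze the centre at once), the complement of `B` has probability of order `α` (let the three
inner edges open first and then freeze the big cluster), but the intersection of the complements
(all edges closed) needs at least three separate freezings and has probability `O(α ^ 3)`.
The bounds are proved with explicit sub- and superharmonic functions of the chain.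
-/

namespace Pool.Agent.Results.MP_b6680e_pr.FkgFails

open Matrix Filter Topology MeasureTheory

/-! ## The model -/

section Model

variable {V : Type*}

/-- An edge configuration of `G`: `true` means open (`1`), `false` means closed (`0`). -/
abbrev EdgeConfig (G : SimpleGraph V) := G.edgeSet → Bool

/-- A state of the chain: the first component says which vertices are frozen
(`true` = frozen, `false` = warm), the second one is the edge configuration. -/
abbrev State (G : SimpleGraph V) := (V → Bool) × EdgeConfig G

/-- The graph on the vertices of `G` whose edges are the open edges of `ω`. -/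
def openGraph (G : SimpleGraph V) (ω : EdgeConfig G) : SimpleGraph V :=
  SimpleGraph.fromEdgeSet {e | ∃ h : e ∈ G.edgeSet, ω ⟨e, h⟩ = true}

/-- A cluster of `ω`: a connected component of the graph of open edges. -/
abbrev Cluster (G : SimpleGraph V) (ω : EdgeConfig G) := (openGraph G ω).ConnectedComponent

/-- The edge `e` may open in the state `s`: it is closed and both of its endpoints are warm. -/
def CanOpen {G : SimpleGraph V} (s : State G) (e : G.edgeSet) : Prop :=
  s.2 e = false ∧ ∀ v ∈ (e : Sym2 V), s.1 v = false

open Classical in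
/-- The state after the edge `e` has opened. -/
noncomputable def openEdge {G : SimpleGraph V} (s : State G) (e : G.edgeSet) : State G :=
  (s.1, Function.update s.2 e true)

open Classical in
/-- The state after all the vertices of the cluster `C` have become frozen. -/
noncomputable def freezeCluster {G : SimpleGraph V} (s : State G) (C : Cluster G s.2) : State G :=
  (fun v => if v ∈ C.supp then true else s.1 v, s.2)

/-- The initial state: all vertices warm, all edges closed. -/
def initial (G : SimpleGraph V) : State G := (fun _ => false, fun _ => false)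

variable [Fintype V]

open Classical in
/-- The total rate at which the chain jumps from `s` to `s'` (for `s' ≠ s`): each edge which may
open opens at rate `1`, and each cluster freezes at rate `α`. -/
noncomputable def jumpRate (G : SimpleGraph V) (α : ℝ) (s s' : State G) : ℝ :=
  (∑ e : G.edgeSet, if CanOpen s e ∧ openEdge s e = s' then 1 else 0) +
    ∑ C : Cluster G s.2, if freezeCluster s C = s' then α else 0

open Classical in
/-- The generator (the `Q`-matrix) of percolation with constant freezing at rate `α`. -/
noncomputable def generator (G : SimpleGraph V) (α : ℝ) : Matrix (State G) (State G) ℝ :=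
  fun s s' => if s = s' then -∑ r ∈ Finset.univ.erase s, jumpRate G α s r else jumpRate G α s s'

open Classical in
/-- The probability that the edge configuration at time `t` of percolation with constant freezing
at rate `α` on `G` (started with all vertices warm and all edges closed) lies in `A`. The
transition matrix of the chain over a time interval of length `t` is `exp (t • Q)`. -/
noncomputable def probAt (G : SimpleGraph V) (α t : ℝ) (A : Set (EdgeConfig G)) : ℝ :=
  ∑ s : State G, if s.2 ∈ A then NormedSpace.exp (t • generator G α) (initial G) s else 0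

/-- `μ` is the law of the final edge configuration of percolation with constant freezing at rate
`α` on `G`: a probability measure with `μ A = lim_{t → ∞} P(edge configuration at time t ∈ A)`. -/
def IsFinalLaw (G : SimpleGraph V) (α : ℝ) (μ : Measure (EdgeConfig G)) : Prop :=
  IsProbabilityMeasure μ ∧
    ∀ A : Set (EdgeConfig G), Tendsto (fun t : ℝ => probAt G α t A) atTop (𝓝 (μ.real A))

end Model

/-! ## Generalities on finite continuous-time Markov chains -/

section General

variable {S : Type*} [Fintype S] [DecidableEq S]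

attribute [local instance] Matrix.linftyOpNormedRing Matrix.linftyOpNormedAlgebra
  Matrix.linftyOpNormedSpace Matrix.linftyOpNormedAddCommGroup

theorem exp_nonneg_of_nonneg (M : Matrix S S ℝ) (h : ∀ i j, 0 ≤ M i j) (i j : S) :
    0 ≤ (NormedSpace.exp M) i j := by
  have h1 : HasSum (fun n : ℕ => ((n.factorial : ℝ)⁻¹) • M ^ n) (NormedSpace.exp M) :=
    NormedSpace.exp_series_hasSum_exp' (𝕂 := ℝ) M
  have hpow : ∀ n : ℕ, ∀ i j, 0 ≤ (M ^ n) i j := by
    intro n
    induction n with
    | zero => intro i j; rw [pow_zero, Matrix.one_apply]; split_ifs <;> norm_num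
    | succ n ih =>
      intro i j
      rw [pow_succ, Matrix.mul_apply]
      exact Finset.sum_nonneg fun k _ => mul_nonneg (ih i k) (h k j)
  have h2 : HasSum (fun n : ℕ => (((n.factorial : ℝ)⁻¹) • M ^ n) i j) (NormedSpace.exp M i j) := by
    have := h1.map (Matrix.entryAddHom ℝ i j) (by
      show Continuous fun M : Matrix S S ℝ => M i j
      exact (continuous_apply j).comp (continuous_apply i))
    exact this
  refine h2.nonneg fun n => ?_
  rw [Matrix.smul_apply, smul_eq_mul]
  exact mul_nonneg (by positivity) (hpow n i j)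

/-- A matrix with non-negative off-diagonal entries has a non-negative exponential. -/
theorem exp_nonneg (Q : Matrix S S ℝ) (h : ∀ i j, i ≠ j → 0 ≤ Q i j) {t : ℝ} (ht : 0 ≤ t)
    (i j : S) : 0 ≤ (NormedSpace.exp (t • Q)) i j := by
  obtain ⟨c, hc⟩ : ∃ c : ℝ, ∀ i, 0 ≤ Q i i + c := by
    refine ⟨∑ i, |Q i i|, fun i => ?_⟩
    have h1 : |Q i i| ≤ ∑ i, |Q i i| :=
      Finset.single_le_sum (f := fun i => |Q i i|) (fun i _ => abs_nonneg _) (Finset.mem_univ i)
    have h2 := neg_abs_le (Q i i)
    linarith
  have hcomm : Commute (t • (Q + c • (1 : Matrix S S ℝ))) ((-(t * c)) • (1 : Matrix S S ℝ)) :=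
    (Commute.one_right _).smul_right _
  have hsum : t • Q = t • (Q + c • (1 : Matrix S S ℝ)) + (-(t * c)) • (1 : Matrix S S ℝ) := by
    rw [smul_add, smul_smul, add_assoc, ← add_smul]; simp
  rw [hsum, Matrix.exp_add_of_commute _ _ hcomm]
  have h1 : NormedSpace.exp ((-(t * c)) • (1 : Matrix S S ℝ)) =
      (Real.exp (-(t*c))) • (1 : Matrix S S ℝ) := by
    have : (-(t * c)) • (1 : Matrix S S ℝ) = Matrix.diagonal (fun _ => -(t*c)) := by
      ext i j; simp [Matrix.diagonal_apply, Matrix.one_apply]
    rw [this, Matrix.exp_diagonal]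
    ext i j
    rw [Matrix.diagonal_apply, Matrix.smul_apply, Matrix.one_apply]
    split_ifs with hij
    · simp [Real.exp_eq_exp_ℝ]
    · simp
  rw [h1, Matrix.mul_smul, mul_one, Matrix.smul_apply, smul_eq_mul]
  refine mul_nonneg (Real.exp_pos _).le (exp_nonneg_of_nonneg _ (fun i j => ?_) i j)
  rw [Matrix.smul_apply, smul_eq_mul]
  refine mul_nonneg ht ?_
  rw [Matrix.add_apply, Matrix.smul_apply, Matrix.one_apply, smul_eq_mul]
  split_ifs with hij
  · subst hij; simpa using hc i
  · simpa using h i j hij

theorem hasDerivAt_exp_mulVec (Q : Matrix S S ℝ) (u : S → ℝ) (i : S) (t : ℝ) :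
    HasDerivAt (fun t : ℝ => (NormedSpace.exp (t • Q) *ᵥ u) i)
      ((NormedSpace.exp (t • Q) *ᵥ (Q *ᵥ u)) i) t := by
  have h1 := hasDerivAt_exp_smul_const (𝕂 := ℝ) Q t
  let L : Matrix S S ℝ →ₗ[ℝ] ℝ :=
    { toFun := fun M => (M *ᵥ u) i
      map_add' := fun M N => by simp [Matrix.add_mulVec]
      map_smul' := fun c M => by simp [Matrix.smul_mulVec] }
  have h2 := (LinearMap.toContinuousLinearMap L).hasFDerivAt.comp_hasDerivAt t h1
  rw [Matrix.mulVec_mulVec]
  exact h2

omit [DecidableEq S] in
theorem mulVec_nonneg (M : Matrix S S ℝ) (h : ∀ i j, 0 ≤ M i j) (u : S → ℝ) (hu : ∀ i, 0 ≤ u i)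
    (i : S) : 0 ≤ (M *ᵥ u) i := by
  rw [Matrix.mulVec, dotProduct]
  exact Finset.sum_nonneg fun j _ => mul_nonneg (h i j) (hu j)

/-- If `u` is subharmonic then `t ↦ (P_t u) i` is non-decreasing on `[0, ∞)`. -/
theorem monotoneOn_exp_mulVec (Q : Matrix S S ℝ) (h : ∀ i j, i ≠ j → 0 ≤ Q i j) (u : S → ℝ)
    (hu : ∀ i, 0 ≤ (Q *ᵥ u) i) (i : S) :
    MonotoneOn (fun t : ℝ => (NormedSpace.exp (t • Q) *ᵥ u) i) (Set.Ici 0) := by
  refine monotoneOn_of_deriv_nonneg (convex_Ici 0)
    (fun t _ => (hasDerivAt_exp_mulVec Q u i t).continuousAt.continuousWithinAt)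
    (fun t _ => (hasDerivAt_exp_mulVec Q u i t).differentiableAt.differentiableWithinAt) ?_
  intro t ht
  rw [interior_Ici, Set.mem_Ioi] at ht
  rw [(hasDerivAt_exp_mulVec Q u i t).deriv]
  exact mulVec_nonneg _ (exp_nonneg Q h ht.le) _ hu i

theorem exp_zero_mulVec (Q : Matrix S S ℝ) (u : S → ℝ) (i : S) :
    (NormedSpace.exp ((0 : ℝ) • Q) *ᵥ u) i = u i := by
  rw [zero_smul, NormedSpace.exp_zero, Matrix.one_mulVec]

theorem le_exp_mulVec (Q : Matrix S S ℝ) (h : ∀ i j, i ≠ j → 0 ≤ Q i j) (u : S → ℝ)
    (hu : ∀ i, 0 ≤ (Q *ᵥ u) i) (i : S) {t : ℝ} (ht : 0 ≤ t) :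
    u i ≤ (NormedSpace.exp (t • Q) *ᵥ u) i := by
  have := monotoneOn_exp_mulVec Q h u hu i (Set.mem_Ici.2 le_rfl) (Set.mem_Ici.2 ht) ht
  simp only [exp_zero_mulVec] at this
  exact this

theorem exp_mulVec_le (Q : Matrix S S ℝ) (h : ∀ i j, i ≠ j → 0 ≤ Q i j) (u : S → ℝ)
    (hu : ∀ i, (Q *ᵥ u) i ≤ 0) (i : S) {t : ℝ} (ht : 0 ≤ t) :
    (NormedSpace.exp (t • Q) *ᵥ u) i ≤ u i := by
  have := le_exp_mulVec Q h (-u) (fun i => by
    rw [Matrix.mulVec_neg]; simpa using hu i) i ht
  rw [Matrix.mulVec_neg] at this
  simpa using this

/-- Exponential decay of a Lyapunov function. -/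
theorem exp_mulVec_le_exp (Q : Matrix S S ℝ) (h : ∀ i j, i ≠ j → 0 ≤ Q i j) (w : S → ℝ) (δ : ℝ)
    (hw : ∀ i, (Q *ᵥ w) i ≤ -δ * w i) (i : S) {t : ℝ} (ht : 0 ≤ t) :
    (NormedSpace.exp (t • Q) *ᵥ w) i ≤ Real.exp (-δ * t) * w i := by
  have hd : ∀ t : ℝ, HasDerivAt
      (fun t : ℝ => Real.exp (δ * t) * (NormedSpace.exp (t • Q) *ᵥ w) i)
      (Real.exp (δ * t) * (δ * (NormedSpace.exp (t • Q) *ᵥ w) i +
        (NormedSpace.exp (t • Q) *ᵥ (Q *ᵥ w)) i)) t := by
    intro t
    have h1 : HasDerivAt (fun t : ℝ => Real.exp (δ * t)) (Real.exp (δ * t) * δ) t := by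
      have := ((hasDerivAt_id t).const_mul δ).exp
      simpa using this
    refine (h1.mul (hasDerivAt_exp_mulVec Q w i t)).congr_deriv ?_
    ring
  have hanti : AntitoneOn (fun t : ℝ => Real.exp (δ * t) * (NormedSpace.exp (t • Q) *ᵥ w) i)
      (Set.Ici 0) := by
    refine antitoneOn_of_deriv_nonpos (convex_Ici 0)
      (fun t _ => (hd t).continuousAt.continuousWithinAt)
      (fun t _ => (hd t).differentiableAt.differentiableWithinAt) ?_
    intro t ht
    rw [interior_Ici, Set.mem_Ioi] at ht
    rw [(hd t).deriv]
    refine mul_nonpos_of_nonneg_of_nonpos (Real.exp_pos _).le ?_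
    have h3 : 0 ≤ (NormedSpace.exp (t • Q) *ᵥ (fun j => -δ * w j - (Q *ᵥ w) j)) i :=
      mulVec_nonneg _ (exp_nonneg Q h ht.le) _ (fun j => by linarith [hw j]) i
    have h4 : (fun j => -δ * w j - (Q *ᵥ w) j) = (-δ) • w - Q *ᵥ w := by
      ext j; simp
    rw [h4, Matrix.mulVec_sub, Matrix.mulVec_smul] at h3
    simp only [Pi.sub_apply, Pi.smul_apply, smul_eq_mul] at h3
    linarith
  have := hanti (Set.mem_Ici.2 le_rfl) (Set.mem_Ici.2 ht) ht
  simp only [mul_zero, Real.exp_zero, one_mul, exp_zero_mulVec] at this
  calc (NormedSpace.exp (t • Q) *ᵥ w) i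
      = Real.exp (-δ * t) * (Real.exp (δ * t) * (NormedSpace.exp (t • Q) *ᵥ w) i) := by
        rw [← mul_assoc, ← Real.exp_add]; simp
    _ ≤ Real.exp (-δ * t) * w i := mul_le_mul_of_nonneg_left this (Real.exp_pos _).le

end General

/-! ## The generator of percolation with constant freezing -/

section Generator

variable {V : Type*} [Fintype V]

open Classical in
theorem generator_mulVec (G : SimpleGraph V) (α : ℝ) (u : State G → ℝ) (s : State G) :
    (generator G α *ᵥ u) s =
      (∑ e : G.edgeSet, if CanOpen s e then u (openEdge s e) - u s else 0) +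
        ∑ C : Cluster G s.2, α * (u (freezeCluster s C) - u s) := by
  have h1 : (generator G α *ᵥ u) s = ∑ r, jumpRate G α s r * (u r - u s) := by
    rw [Matrix.mulVec, dotProduct, ← Finset.add_sum_erase _ _ (Finset.mem_univ s),
      ← Finset.add_sum_erase _ (fun r => jumpRate G α s r * (u r - u s)) (Finset.mem_univ s)]
    have h2 : ∑ r ∈ Finset.univ.erase s, generator G α s r * u r =
        ∑ r ∈ Finset.univ.erase s, jumpRate G α s r * u r := by
      refine Finset.sum_congr rfl fun r hr => ?_
      rw [generator, if_neg (Finset.ne_of_mem_erase hr).symm]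
    rw [h2, generator, if_pos rfl, sub_self, mul_zero, zero_add, neg_mul, Finset.sum_mul,
      ← sub_eq_neg_add, ← Finset.sum_sub_distrib]
    exact Finset.sum_congr rfl fun r _ => by ring
  rw [h1]
  simp only [jumpRate, add_mul, Finset.sum_add_distrib, Finset.sum_mul]
  congr 1
  · rw [Finset.sum_comm]
    refine Finset.sum_congr rfl fun e _ => ?_
    by_cases hc : CanOpen s e
    · simp [hc]
    · simp [hc]
  · rw [Finset.sum_comm]
    refine Finset.sum_congr rfl fun C _ => ?_
    simp

theorem generator_offDiag_nonneg (G : SimpleGraph V) {α : ℝ} (hα : 0 ≤ α) (s r : State G)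
    (h : s ≠ r) : 0 ≤ generator G α s r := by
  classical
  rw [generator, if_neg h, jumpRate]
  refine add_nonneg (Finset.sum_nonneg fun e _ => ?_) (Finset.sum_nonneg fun C _ => ?_)
  · split_ifs <;> norm_num
  · split_ifs
    exacts [hα, le_rfl]

open Classical in
/-- The generator applied to a function. -/
noncomputable def gen (G : SimpleGraph V) (α : ℝ) (u : State G → ℝ) (s : State G) : ℝ :=
  (generator G α *ᵥ u) s

theorem gen_eq (G : SimpleGraph V) (α : ℝ) (u : State G → ℝ) (s : State G)
    [Fintype G.edgeSet] [Fintype (Cluster G s.2)] [∀ e, Decidable (CanOpen s e)] :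
    gen G α u s = (∑ e : G.edgeSet, if CanOpen s e then u (openEdge s e) - u s else 0) +
        ∑ C : Cluster G s.2, α * (u (freezeCluster s C) - u s) := by
  rw [gen, generator_mulVec]
  refine congrArg₂ (· + ·) ?_ ?_
  · refine Finset.sum_congr (by ext e; simp) fun e _ => ?_
    by_cases h : CanOpen s e
    · rw [if_pos h, if_pos h]
    · rw [if_neg h, if_neg h]
  · exact Finset.sum_congr (by ext; simp) fun _ _ => rfl

omit [Fintype V] in
theorem openEdge_self {G : SimpleGraph V} (s : State G) (e : G.edgeSet) :
    (openEdge s e).2 e = true := by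
  simp [openEdge]

omit [Fintype V] in
theorem openEdge_of_ne {G : SimpleGraph V} (s : State G) {e e' : G.edgeSet} (h : e' ≠ e) :
    (openEdge s e).2 e' = s.2 e' := by
  classical
  exact Function.update_of_ne h _ _

omit [Fintype V] in
theorem openEdge_fst {G : SimpleGraph V} (s : State G) (e : G.edgeSet) :
    (openEdge s e).1 = s.1 := rfl

omit [Fintype V] in
theorem freezeCluster_snd {G : SimpleGraph V} (s : State G) (C : Cluster G s.2) :
    (freezeCluster s C).2 = s.2 := rfl

omit [Fintype V] in
theorem freezeCluster_of_mem {G : SimpleGraph V} (s : State G) {C : Cluster G s.2} {v : V}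
    (h : v ∈ C.supp) : (freezeCluster s C).1 v = true := by
  simp [freezeCluster, h]

omit [Fintype V] in
theorem freezeCluster_of_notMem {G : SimpleGraph V} (s : State G) {C : Cluster G s.2} {v : V}
    (h : v ∉ C.supp) : (freezeCluster s C).1 v = s.1 v := by
  simp [freezeCluster, h]

omit [Fintype V] in
theorem freezeCluster_of_frozen {G : SimpleGraph V} (s : State G) (C : Cluster G s.2) {v : V}
    (h : s.1 v = true) : (freezeCluster s C).1 v = true := by
  simp [freezeCluster, h]

omit [Fintype V] in
/-- The state `s` is absorbed: all vertices are frozen. -/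
def Absorbed {G : SimpleGraph V} (s : State G) : Prop := ∀ v, s.1 v = true

omit [Fintype V] in
theorem Absorbed.not_canOpen {G : SimpleGraph V} {s : State G} (h : Absorbed s) (e : G.edgeSet) :
    ¬ CanOpen s e := by
  rintro ⟨-, h2⟩
  obtain ⟨e, he⟩ := e
  induction e using Sym2.ind with
  | _ a b =>
    have := h2 a (Sym2.mem_mk_left a b)
    rw [h a] at this
    exact absurd this (by simp)

omit [Fintype V] in
theorem Absorbed.freezeCluster {G : SimpleGraph V} {s : State G} (h : Absorbed s)
    (C : Cluster G s.2) : freezeCluster s C = s := by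
  classical
  refine Prod.ext (funext fun v => ?_) rfl
  simp only [FkgFails.freezeCluster]
  split_ifs
  exacts [(h v).symm, rfl]

open Classical in
/-- On an absorbed state the generator vanishes. -/
theorem Absorbed.generator_mulVec {G : SimpleGraph V} {s : State G} (h : Absorbed s) (α : ℝ)
    (u : State G → ℝ) : (generator G α *ᵥ u) s = 0 := by
  rw [FkgFails.generator_mulVec]
  simp [h.not_canOpen, h.freezeCluster]

open Classical in
/-- The number of open edges plus the number of frozen vertices. -/
noncomputable def rank {G : SimpleGraph V} (s : State G) : ℕ :=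
  (Finset.univ.filter fun e => s.2 e = true).card + (Finset.univ.filter fun v => s.1 v = true).card

theorem rank_openEdge {G : SimpleGraph V} {s : State G} {e : G.edgeSet} (h : CanOpen s e) :
    rank s + 1 ≤ rank (openEdge s e) := by
  classical
  have h1 : (Finset.univ.filter fun e' => s.2 e' = true).card + 1 ≤
      (Finset.univ.filter fun e' => (openEdge s e).2 e' = true).card := by
    rw [← Finset.card_insert_of_notMem (a := e) (by simp [h.1])]
    refine Finset.card_le_card fun e' he' => ?_
    rw [Finset.mem_insert, Finset.mem_filter] at he'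
    rw [Finset.mem_filter]
    refine ⟨Finset.mem_univ _, ?_⟩
    by_cases hee : e' = e
    · subst hee; simp [openEdge]
    · rcases he' with he' | he'
      · exact absurd he' hee
      · simp only [openEdge]
        rw [Function.update_of_ne hee]; exact he'.2
  have h2 : (openEdge s e).1 = s.1 := rfl
  rw [rank, rank, h2]
  omega

theorem rank_freezeCluster {G : SimpleGraph V} (s : State G) (C : Cluster G s.2) :
    rank s ≤ rank (freezeCluster s C) := by
  classical
  have h2 : (freezeCluster s C).2 = s.2 := rfl
  rw [rank, rank, h2]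
  refine Nat.add_le_add_left (Finset.card_le_card fun v hv => ?_) _
  rw [Finset.mem_filter] at hv ⊢
  refine ⟨Finset.mem_univ _, ?_⟩
  simp only [freezeCluster]
  split_ifs
  exacts [rfl, hv.2]

theorem rank_freezeCluster_of_warm {G : SimpleGraph V} (s : State G) (v : V)
    (hv : s.1 v = false) :
    rank s + 1 ≤ rank (freezeCluster s ((openGraph G s.2).connectedComponentMk v)) := by
  classical
  have h2 : (freezeCluster s ((openGraph G s.2).connectedComponentMk v)).2 = s.2 := rfl
  rw [rank, rank, h2, add_assoc]
  refine Nat.add_le_add_left ?_ _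
  rw [← Finset.card_insert_of_notMem (a := v) (by simp [hv])]
  refine Finset.card_le_card fun x hx => ?_
  rw [Finset.mem_insert, Finset.mem_filter] at hx
  rw [Finset.mem_filter]
  refine ⟨Finset.mem_univ _, ?_⟩
  simp only [freezeCluster]
  split_ifs with hxv
  · rfl
  · rcases hx with rfl | hx
    · exact absurd rfl hxv
    · exact hx.2

open Classical in
/-- A Lyapunov function. -/
noncomputable def lyap {G : SimpleGraph V} (s : State G) : ℝ :=
  if Absorbed s then 0 else (1 / 2) ^ rank s

theorem lyap_nonneg {G : SimpleGraph V} (s : State G) : 0 ≤ lyap s := by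
  classical
  rw [lyap]; split_ifs <;> positivity

theorem lyap_le_half {G : SimpleGraph V} {s r : State G} (hs : ¬ Absorbed s)
    (h : rank s + 1 ≤ rank r) : lyap r ≤ lyap s / 2 := by
  classical
  rw [lyap, lyap, if_neg hs]
  split_ifs
  · positivity
  · calc ((1 : ℝ) / 2) ^ rank r ≤ (1 / 2) ^ (rank s + 1) :=
        pow_le_pow_of_le_one (by norm_num) (by norm_num) h
      _ = (1 / 2) ^ rank s / 2 := by rw [pow_succ]; ring

theorem lyap_le {G : SimpleGraph V} {s r : State G} (hs : ¬ Absorbed s)
    (h : rank s ≤ rank r) : lyap r ≤ lyap s := by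
  classical
  rw [lyap, lyap, if_neg hs]
  split_ifs
  · positivity
  · exact pow_le_pow_of_le_one (by norm_num) (by norm_num) h

open Classical in
theorem generator_lyap (G : SimpleGraph V) {α : ℝ} (hα : 0 ≤ α) (s : State G) :
    (generator G α *ᵥ lyap) s ≤ -(α / 2) * lyap s := by
  by_cases hs : Absorbed s
  · rw [hs.generator_mulVec, lyap, if_pos hs, mul_zero]
  · rw [generator_mulVec]
    have h1 : (∑ e : G.edgeSet, if CanOpen s e then lyap (openEdge s e) - lyap s else 0) ≤ 0 := by
      refine Finset.sum_nonpos fun e _ => ?_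
      split_ifs with he
      · have := lyap_le_half hs (rank_openEdge he)
        have := lyap_nonneg s
        linarith
      · exact le_rfl
    obtain ⟨v, hv⟩ : ∃ v, s.1 v = false := by
      by_contra hcon
      push Not at hcon
      exact hs fun v => by simpa using hcon v
    have h2 : (∑ C : Cluster G s.2, α * (lyap (freezeCluster s C) - lyap s)) ≤
        α * (lyap (freezeCluster s ((openGraph G s.2).connectedComponentMk v)) - lyap s) := by
      rw [← Finset.add_sum_erase _ _ (Finset.mem_univ ((openGraph G s.2).connectedComponentMk v))]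
      have : (∑ C ∈ Finset.univ.erase ((openGraph G s.2).connectedComponentMk v),
          α * (lyap (freezeCluster s C) - lyap s)) ≤ 0 := by
        refine Finset.sum_nonpos fun C _ => ?_
        have := lyap_le hs (rank_freezeCluster s C)
        exact mul_nonpos_of_nonneg_of_nonpos hα (by linarith)
      linarith
    have h3 := lyap_le_half hs (rank_freezeCluster_of_warm s v hv)
    have h4 : α * (lyap (freezeCluster s ((openGraph G s.2).connectedComponentMk v)) - lyap s) ≤
        α * (lyap s / 2 - lyap s) := mul_le_mul_of_nonneg_left (by linarith) hα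
    linarith

theorem card_cluster_le (G : SimpleGraph V) (s : State G) [Fintype (Cluster G s.2)] :
    Fintype.card (Cluster G s.2) ≤ Fintype.card V :=
  Fintype.card_le_of_surjective (openGraph G s.2).connectedComponentMk fun C => by
    induction C using SimpleGraph.ConnectedComponent.ind with
    | _ v => exact ⟨v, rfl⟩

/-- Lower bound for the freezing part of the generator of a non-negative function. -/
theorem sum_cluster_ge (G : SimpleGraph V) {α : ℝ} (hα : 0 ≤ α) (u : State G → ℝ)
    (hu : ∀ s, 0 ≤ u s) (s : State G) [Fintype (Cluster G s.2)] (C₀ : Cluster G s.2) :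
    α * u (freezeCluster s C₀) - Fintype.card V * (α * u s) ≤
      ∑ C : Cluster G s.2, α * (u (freezeCluster s C) - u s) := by
  have h1 : ∑ C : Cluster G s.2, α * (u (freezeCluster s C) - u s) =
      α * ∑ C : Cluster G s.2, u (freezeCluster s C) -
        Fintype.card (Cluster G s.2) * (α * u s) := by
    rw [← Finset.mul_sum, Finset.sum_sub_distrib, Finset.sum_const, Finset.card_univ,
      nsmul_eq_mul]
    ring
  have h2 : u (freezeCluster s C₀) ≤ ∑ C : Cluster G s.2, u (freezeCluster s C) :=
    Finset.single_le_sum (f := fun C : Cluster G s.2 => u (freezeCluster s C))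
      (fun C _ => hu _) (Finset.mem_univ C₀)
  have h3 : (Fintype.card (Cluster G s.2) : ℝ) ≤ Fintype.card V := by
    exact_mod_cast card_cluster_le G s
  have h4 : (Fintype.card (Cluster G s.2) : ℝ) * (α * u s) ≤ Fintype.card V * (α * u s) :=
    mul_le_mul_of_nonneg_right h3 (mul_nonneg hα (hu s))
  have h5 := mul_le_mul_of_nonneg_left h2 hα
  rw [h1]
  linarith

open Classical in
theorem generator_rowSum (G : SimpleGraph V) (α : ℝ) (s : State G) :
    (generator G α *ᵥ fun _ => (1 : ℝ)) s = 0 := by
  rw [generator_mulVec]
  simp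

open Classical in
/-- The probability that the chain is not absorbed at time `t`. -/
noncomputable def notAbs (G : SimpleGraph V) (α t : ℝ) : ℝ :=
  (NormedSpace.exp (t • generator G α) *ᵥ fun s => if Absorbed s then (0 : ℝ) else 1) (initial G)

open Classical in
theorem probAt_eq (G : SimpleGraph V) (α t : ℝ) (A : Set (EdgeConfig G)) :
    probAt G α t A = (NormedSpace.exp (t • generator G α) *ᵥ
      fun s => if s.2 ∈ A then (1 : ℝ) else 0) (initial G) := by
  rw [probAt, Matrix.mulVec, dotProduct]
  exact Finset.sum_congr rfl fun s _ => by simp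

theorem notAbs_nonneg (G : SimpleGraph V) {α t : ℝ} (hα : 0 ≤ α) (ht : 0 ≤ t) :
    0 ≤ notAbs G α t := by
  classical
  refine mulVec_nonneg _ (exp_nonneg _ (generator_offDiag_nonneg G hα) ht) _ (fun s => ?_) _
  split_ifs <;> norm_num

theorem tendsto_notAbs (G : SimpleGraph V) {α : ℝ} (hα : 0 < α) :
    Tendsto (fun t => notAbs G α t) atTop (𝓝 0) := by
  classical
  have hK : ∀ s : State G, (if Absorbed s then (0 : ℝ) else 1) ≤
      (∑ r : State G, (2 : ℝ) ^ rank r) * lyap s := by
    intro s
    by_cases hs : Absorbed s
    · rw [if_pos hs, lyap, if_pos hs, mul_zero]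
    · rw [if_neg hs, lyap, if_neg hs]
      have h1 : (2 : ℝ) ^ rank s ≤ ∑ r : State G, (2 : ℝ) ^ rank r :=
        Finset.single_le_sum (f := fun r : State G => (2 : ℝ) ^ rank r)
          (fun _ _ => by positivity) (Finset.mem_univ s)
      calc (1 : ℝ) = (2 : ℝ) ^ rank s * (1 / 2) ^ rank s := by
            rw [← mul_pow]; norm_num
        _ ≤ _ := mul_le_mul_of_nonneg_right h1 (by positivity)
  have hbound : ∀ t : ℝ, 0 ≤ t → notAbs G α t ≤
      (∑ r : State G, (2 : ℝ) ^ rank r) * (Real.exp (-(α / 2) * t) * lyap (initial G)) := by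
    intro t ht
    have h1 := exp_mulVec_le_exp (generator G α) (generator_offDiag_nonneg G hα.le) lyap (α / 2)
      (generator_lyap G hα.le) (initial G) ht
    have h2 : 0 ≤ (NormedSpace.exp (t • generator G α) *ᵥ
        (fun s : State G => (∑ r : State G, (2 : ℝ) ^ rank r) * lyap s -
          (if Absorbed s then (0 : ℝ) else 1))) (initial G) :=
      mulVec_nonneg _ (exp_nonneg _ (generator_offDiag_nonneg G hα.le) ht) _
        (fun s => sub_nonneg.2 (hK s)) _
    have h3 : (fun s : State G => (∑ r : State G, (2 : ℝ) ^ rank r) * lyap s -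
          (if Absorbed s then (0 : ℝ) else 1)) =
        (∑ r : State G, (2 : ℝ) ^ rank r) • lyap - fun s : State G =>
          (if Absorbed s then (0 : ℝ) else 1) := by
      ext s; simp
    rw [h3, Matrix.mulVec_sub, Matrix.mulVec_smul] at h2
    simp only [Pi.sub_apply, Pi.smul_apply, smul_eq_mul] at h2
    rw [notAbs]
    calc _ ≤ (∑ r : State G, (2 : ℝ) ^ rank r) *
        (NormedSpace.exp (t • generator G α) *ᵥ lyap) (initial G) := by linarith
      _ ≤ _ := mul_le_mul_of_nonneg_left h1 (Finset.sum_nonneg fun _ _ => by positivity)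
  have hlim : Tendsto (fun t : ℝ => (∑ r : State G, (2 : ℝ) ^ rank r) *
      (Real.exp (-(α / 2) * t) * lyap (initial G))) atTop (𝓝 0) := by
    have h1 : Tendsto (fun t : ℝ => Real.exp (-(α / 2) * t)) atTop (𝓝 0) := by
      refine Real.tendsto_exp_atBot.comp ?_
      exact tendsto_id.const_mul_atTop_of_neg (by linarith)
    simpa using (h1.mul_const (lyap (initial G))).const_mul (∑ r : State G, (2 : ℝ) ^ rank r)
  refine squeeze_zero' ?_ ?_ hlim
  · filter_upwards [eventually_ge_atTop 0] with t ht using notAbs_nonneg G hα.le ht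
  · filter_upwards [eventually_ge_atTop 0] with t ht using hbound t ht

/-- Comparison with a subharmonic function. -/
theorem le_finalLaw {G : SimpleGraph V} {α : ℝ} (hα : 0 < α) {μ : Measure (EdgeConfig G)}
    (hμ : IsFinalLaw G α μ) (A : Set (EdgeConfig G)) (u : State G → ℝ)
    (hu : ∀ s, 0 ≤ gen G α u s)
    (hA1 : ∀ s, Absorbed s → s.2 ∈ A → u s ≤ 1)
    (hA0 : ∀ s, Absorbed s → s.2 ∉ A → u s ≤ 0) :
    u (initial G) ≤ μ.real A := by
  classical
  have hA : ∀ s, Absorbed s → u s ≤ if s.2 ∈ A then 1 else 0 := by
    intro s hs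
    split_ifs with h
    exacts [hA1 s hs h, hA0 s hs h]
  obtain ⟨M, hM0, hM⟩ : ∃ M : ℝ, 0 ≤ M ∧ ∀ s, u s ≤ M := by
    refine ⟨∑ s, |u s|, Finset.sum_nonneg fun _ _ => abs_nonneg _, fun s => ?_⟩
    exact (le_abs_self _).trans
      (Finset.single_le_sum (f := fun s => |u s|) (fun _ _ => abs_nonneg _) (Finset.mem_univ s))
  have h1 : Tendsto (fun t : ℝ => probAt G α t A + M * notAbs G α t) atTop
      (𝓝 (μ.real A + M * 0)) := (hμ.2 A).add ((tendsto_notAbs G hα).const_mul M)
  rw [mul_zero, add_zero] at h1
  refine ge_of_tendsto h1 ?_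
  filter_upwards [eventually_ge_atTop 0] with t ht
  have h2 := le_exp_mulVec (generator G α) (generator_offDiag_nonneg G hα.le) u hu (initial G) ht
  have h3 : 0 ≤ (NormedSpace.exp (t • generator G α) *ᵥ
      (fun s : State G => (if s.2 ∈ A then (1 : ℝ) else 0) +
        M * (if Absorbed s then (0 : ℝ) else 1) - u s)) (initial G) := by
    refine mulVec_nonneg _ (exp_nonneg _ (generator_offDiag_nonneg G hα.le) ht) _
        (fun s => sub_nonneg.2 ?_) _
    by_cases hs : Absorbed s
    · rw [if_pos hs, mul_zero, add_zero]; exact hA s hs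
    · rw [if_neg hs, mul_one]
      have : (0 : ℝ) ≤ if s.2 ∈ A then (1 : ℝ) else 0 := by split_ifs <;> norm_num
      linarith [hM s]
  have h4 : (fun s : State G => (if s.2 ∈ A then (1 : ℝ) else 0) +
        M * (if Absorbed s then (0 : ℝ) else 1) - u s) =
      (fun s : State G => (if s.2 ∈ A then (1 : ℝ) else 0)) +
        M • (fun s : State G => (if Absorbed s then (0 : ℝ) else 1)) - u := by
    ext s; simp
  rw [h4, Matrix.mulVec_sub, Matrix.mulVec_add, Matrix.mulVec_smul] at h3
  simp only [Pi.sub_apply, Pi.add_apply, Pi.smul_apply, smul_eq_mul] at h3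
  rw [probAt_eq, notAbs]
  linarith

/-- Comparison with a superharmonic function. -/
theorem finalLaw_le {G : SimpleGraph V} {α : ℝ} (hα : 0 < α) {μ : Measure (EdgeConfig G)}
    (hμ : IsFinalLaw G α μ) (A : Set (EdgeConfig G)) (u : State G → ℝ)
    (hu : ∀ s, gen G α u s ≤ 0)
    (hA1 : ∀ s, Absorbed s → s.2 ∈ A → 1 ≤ u s)
    (hA0 : ∀ s, Absorbed s → s.2 ∉ A → 0 ≤ u s) :
    μ.real A ≤ u (initial G) := by
  classical
  have hA : ∀ s, Absorbed s → (if s.2 ∈ A then 1 else 0) ≤ u s := by
    intro s hs
    split_ifs with h
    exacts [hA1 s hs h, hA0 s hs h]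
  obtain ⟨M, hM0, hM⟩ : ∃ M : ℝ, 0 ≤ M ∧ ∀ s, -u s ≤ M := by
    refine ⟨∑ s, |u s|, Finset.sum_nonneg fun _ _ => abs_nonneg _, fun s => ?_⟩
    exact (neg_le_abs _).trans
      (Finset.single_le_sum (f := fun s => |u s|) (fun _ _ => abs_nonneg _) (Finset.mem_univ s))
  have h1 : Tendsto (fun t : ℝ => probAt G α t A - (M + 1) * notAbs G α t) atTop
      (𝓝 (μ.real A - (M + 1) * 0)) := (hμ.2 A).sub ((tendsto_notAbs G hα).const_mul (M + 1))
  rw [mul_zero, sub_zero] at h1
  refine le_of_tendsto h1 ?_
  filter_upwards [eventually_ge_atTop 0] with t ht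
  have h2 := exp_mulVec_le (generator G α) (generator_offDiag_nonneg G hα.le) u hu (initial G) ht
  have h3 : 0 ≤ (NormedSpace.exp (t • generator G α) *ᵥ
      (fun s : State G => u s + (M + 1) * (if Absorbed s then (0 : ℝ) else 1) -
        (if s.2 ∈ A then (1 : ℝ) else 0))) (initial G) := by
    refine mulVec_nonneg _ (exp_nonneg _ (generator_offDiag_nonneg G hα.le) ht) _
        (fun s => sub_nonneg.2 ?_) _
    by_cases hs : Absorbed s
    · rw [if_pos hs, mul_zero, add_zero]; exact hA s hs
    · rw [if_neg hs, mul_one]
      have : (if s.2 ∈ A then (1 : ℝ) else 0) ≤ 1 := by split_ifs <;> norm_num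
      linarith [hM s]
  have h4 : (fun s : State G => u s + (M + 1) * (if Absorbed s then (0 : ℝ) else 1) -
        (if s.2 ∈ A then (1 : ℝ) else 0)) =
      u + (M + 1) • (fun s : State G => (if Absorbed s then (0 : ℝ) else 1)) -
        (fun s : State G => (if s.2 ∈ A then (1 : ℝ) else 0)) := by
    ext s; simp
  rw [h4, Matrix.mulVec_sub, Matrix.mulVec_add, Matrix.mulVec_smul] at h3
  simp only [Pi.sub_apply, Pi.add_apply, Pi.smul_apply, smul_eq_mul] at h3
  rw [probAt_eq, notAbs]
  linarith

end Generator

/-! ## Existence and uniqueness of the final law -/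

section Existence

variable {V : Type*} [Fintype V]

/-- The law at time `t` of the edge configuration converges as `t → ∞`. -/
theorem exists_tendsto_probAt (G : SimpleGraph V) {α : ℝ} (hα : 0 < α) (A : Set (EdgeConfig G)) :
    ∃ L : ℝ, Tendsto (fun t : ℝ => probAt G α t A) atTop (𝓝 L) := by
  classical
  set l : State G → ℝ := fun s => if Absorbed s ∧ s.2 ∈ A then 1 else 0 with hl
  have hl0 : ∀ s, 0 ≤ l s := fun s => by simp only [hl]; split_ifs <;> norm_num
  have hl1 : ∀ s, l s ≤ 1 := fun s => by simp only [hl]; split_ifs <;> norm_num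
  have hsub : ∀ s, 0 ≤ (generator G α *ᵥ l) s := by
    intro s
    by_cases hs : Absorbed s
    · rw [hs.generator_mulVec]
    · have hls : l s = 0 := by simp only [hl]; rw [if_neg (fun h => hs h.1)]
      rw [generator_mulVec, hls]
      refine add_nonneg (Finset.sum_nonneg fun e _ => ?_) (Finset.sum_nonneg fun C _ => ?_)
      · split_ifs
        · rw [sub_zero]; exact hl0 _
        · exact le_rfl
      · rw [sub_zero]; exact mul_nonneg hα.le (hl0 _)
  have hone : ∀ t : ℝ, 0 ≤ t →
      (NormedSpace.exp (t • generator G α) *ᵥ fun _ => (1 : ℝ)) (initial G) ≤ 1 := by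
    intro t ht
    exact exp_mulVec_le (generator G α) (generator_offDiag_nonneg G hα.le) (fun _ => (1 : ℝ))
      (fun s => (generator_rowSum G α s).le) (initial G) ht
  have hmono := monotoneOn_exp_mulVec (generator G α) (generator_offDiag_nonneg G hα.le) l hsub
    (initial G)
  have hbdd : ∀ t : ℝ, 0 ≤ t → (NormedSpace.exp (t • generator G α) *ᵥ l) (initial G) ≤ 1 := by
    intro t ht
    have h3 : 0 ≤ (NormedSpace.exp (t • generator G α) *ᵥ
        ((fun _ => (1 : ℝ)) - l)) (initial G) :=
      mulVec_nonneg _ (exp_nonneg _ (generator_offDiag_nonneg G hα.le) ht) _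
        (fun s => sub_nonneg.2 (hl1 s)) _
    rw [Matrix.mulVec_sub] at h3
    simp only [Pi.sub_apply] at h3
    linarith [hone t ht]
  -- monotone convergence
  obtain ⟨L, hL⟩ : ∃ L : ℝ, Tendsto
      (fun t : ℝ => (NormedSpace.exp (t • generator G α) *ᵥ l) (initial G)) atTop (𝓝 L) := by
    set f : ℝ → ℝ := fun t => (NormedSpace.exp (t • generator G α) *ᵥ l) (initial G) with hf
    set g : ℝ → ℝ := fun t => f (max t 0) with hg
    have hgm : Monotone g := by
      intro a b hab
      exact hmono (Set.mem_Ici.2 (le_max_right _ _)) (Set.mem_Ici.2 (le_max_right _ _))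
        (max_le_max_right 0 hab)
    have hgb : BddAbove (Set.range g) := ⟨1, by
      rintro _ ⟨t, rfl⟩
      exact hbdd _ (le_max_right _ _)⟩
    refine ⟨_, (tendsto_atTop_ciSup hgm hgb).congr' ?_⟩
    filter_upwards [eventually_ge_atTop 0] with t ht
    simp only [hg, max_eq_left ht]
  refine ⟨L, ?_⟩
  have hdiff : Tendsto (fun t : ℝ => probAt G α t A -
      (NormedSpace.exp (t • generator G α) *ᵥ l) (initial G)) atTop (𝓝 0) := by
    refine squeeze_zero' ?_ ?_ (tendsto_notAbs G hα)
    · filter_upwards [eventually_ge_atTop 0] with t ht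
      rw [probAt_eq]
      have h3 : 0 ≤ (NormedSpace.exp (t • generator G α) *ᵥ
          ((fun s : State G => if s.2 ∈ A then (1 : ℝ) else 0) - l)) (initial G) := by
        refine mulVec_nonneg _ (exp_nonneg _ (generator_offDiag_nonneg G hα.le) ht) _
          (fun s => sub_nonneg.2 ?_) _
        simp only [hl]
        by_cases h1 : s.2 ∈ A
        · rw [if_pos h1]; split_ifs <;> norm_num
        · rw [if_neg h1, if_neg (fun h => h1 h.2)]
      rw [Matrix.mulVec_sub] at h3
      simpa using h3
    · filter_upwards [eventually_ge_atTop 0] with t ht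
      rw [probAt_eq, notAbs]
      have h3 : 0 ≤ (NormedSpace.exp (t • generator G α) *ᵥ
          ((fun s : State G => if Absorbed s then (0 : ℝ) else 1) -
            ((fun s : State G => if s.2 ∈ A then (1 : ℝ) else 0) - l))) (initial G) := by
        refine mulVec_nonneg _ (exp_nonneg _ (generator_offDiag_nonneg G hα.le) ht) _
          (fun s => sub_nonneg.2 ?_) _
        simp only [hl, Pi.sub_apply]
        by_cases h1 : Absorbed s <;> by_cases h2 : s.2 ∈ A <;> simp [h1, h2]
      rw [Matrix.mulVec_sub, Matrix.mulVec_sub] at h3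
      simp only [Pi.sub_apply] at h3
      linarith
  have := hdiff.add hL
  simpa using this

theorem probAt_univ (G : SimpleGraph V) {α : ℝ} (hα : 0 < α) {t : ℝ} (ht : 0 ≤ t) :
    probAt G α t Set.univ = 1 := by
  classical
  rw [probAt_eq]
  simp only [Set.mem_univ, if_true]
  refine le_antisymm ?_ ?_
  · exact exp_mulVec_le (generator G α) (generator_offDiag_nonneg G hα.le) (fun _ => (1 : ℝ))
      (fun s => (generator_rowSum G α s).le) (initial G) ht
  · exact le_exp_mulVec (generator G α) (generator_offDiag_nonneg G hα.le) (fun _ => (1 : ℝ))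
      (fun s => (generator_rowSum G α s).ge) (initial G) ht

theorem probAt_nonneg (G : SimpleGraph V) {α : ℝ} (hα : 0 < α) {t : ℝ} (ht : 0 ≤ t)
    (A : Set (EdgeConfig G)) : 0 ≤ probAt G α t A := by
  classical
  rw [probAt_eq]
  refine mulVec_nonneg _ (exp_nonneg _ (generator_offDiag_nonneg G hα.le) ht) _ (fun s => ?_) _
  split_ifs <;> norm_num

open Classical in
/-- Auxiliary: the total weight of `A`. -/
noncomputable def evSum (G : SimpleGraph V) (E : State G → ℝ) (A : Set (EdgeConfig G)) : ℝ :=
  ∑ s : State G, if s.2 ∈ A then E s else 0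

open Classical in
theorem evSum_eq (G : SimpleGraph V) (E : State G → ℝ) (A : Set (EdgeConfig G)) :
    evSum G E A = ∑ ω : EdgeConfig G, if ω ∈ A then evSum G E {ω} else 0 := by
  have : ∀ ω : EdgeConfig G, (if ω ∈ A then evSum G E {ω} else 0) =
      ∑ s : State G, if s.2 = ω then (if ω ∈ A then E s else 0) else 0 := by
    intro ω
    split_ifs with h
    · rw [evSum]
      exact Finset.sum_congr rfl fun s _ => by simp [Set.mem_singleton_iff]
    · simp
  simp only [this]
  rw [Finset.sum_comm, evSum]
  exact Finset.sum_congr rfl fun s _ => by simp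

open Classical in
theorem probAt_eq_evSum (G : SimpleGraph V) (α t : ℝ) (A : Set (EdgeConfig G)) :
    probAt G α t A = evSum G (fun s => NormedSpace.exp (t • generator G α) (initial G) s) A := by
  rw [probAt, evSum]

open Classical in
theorem probAt_eq_sum (G : SimpleGraph V) (α t : ℝ) (A : Set (EdgeConfig G)) :
    probAt G α t A = ∑ ω : EdgeConfig G, if ω ∈ A then probAt G α t {ω} else 0 := by
  rw [probAt_eq_evSum, evSum_eq]
  exact Finset.sum_congr rfl fun ω _ => by rw [probAt_eq_evSum]

/-- Every finite graph and every rate `α > 0` has a final law. -/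
theorem exists_finalLaw (G : SimpleGraph V) {α : ℝ} (hα : 0 < α) :
    ∃ μ : Measure (EdgeConfig G), IsFinalLaw G α μ := by
  classical
  choose L hL using exists_tendsto_probAt G hα
  have hL0 : ∀ A, 0 ≤ L A := fun A => ge_of_tendsto (hL A) (by
    filter_upwards [eventually_ge_atTop 0] with t ht using probAt_nonneg G hα ht A)
  have hL1 : L Set.univ = 1 := by
    refine tendsto_nhds_unique (hL Set.univ) (tendsto_const_nhds.congr' ?_)
    filter_upwards [eventually_ge_atTop 0] with t ht using (probAt_univ G hα ht).symm
  have hLsum : ∀ A, L A = ∑ ω : EdgeConfig G, if ω ∈ A then L {ω} else 0 := by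
    intro A
    refine tendsto_nhds_unique (hL A) ?_
    have : (fun t => probAt G α t A) =
        fun t => ∑ ω : EdgeConfig G, if ω ∈ A then probAt G α t {ω} else 0 :=
      funext fun t => probAt_eq_sum G α t A
    rw [this]
    refine tendsto_finsetSum _ fun ω _ => ?_
    split_ifs
    · exact hL {ω}
    · exact tendsto_const_nhds
  set μ : Measure (EdgeConfig G) := ∑ ω : EdgeConfig G, ENNReal.ofReal (L {ω}) • Measure.dirac ω
    with hμ
  have hμA : ∀ A : Set (EdgeConfig G), μ A = ENNReal.ofReal (L A) := by
    intro A
    rw [hμ, Measure.finsetSum_apply, hLsum A, ENNReal.ofReal_sum_of_nonneg]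
    · refine Finset.sum_congr rfl fun ω _ => ?_
      rw [Measure.smul_apply, Measure.dirac_apply, smul_eq_mul, Set.indicator_apply]
      split_ifs <;> simp
    · intro ω _
      split_ifs
      exacts [hL0 _, le_rfl]
  refine ⟨μ, ⟨?_⟩, fun A => ?_⟩
  · rw [hμA, hL1]; simp
  · rw [Measure.real, hμA, ENNReal.toReal_ofReal (hL0 A)]
    exact hL A

/-- The final law is unique. -/
theorem finalLaw_unique {G : SimpleGraph V} {α : ℝ} {μ ν : Measure (EdgeConfig G)}
    (hμ : IsFinalLaw G α μ) (hν : IsFinalLaw G α ν) : μ = ν := by
  have := hμ.1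
  have := hν.1
  refine Measure.ext fun A _ => ?_
  have h := tendsto_nhds_unique (hμ.2 A) (hν.2 A)
  exact (measureReal_eq_measureReal_iff).1 h

end Existence

/-! ## The spider with three legs of length two -/

section Spider

/-- The spider: vertex `0` is joined to `1, 2, 3`, and `1`, `2`, `3` are joined to `4`, `5`, `6`
respectively. -/
def spider : SimpleGraph (Fin 7) :=
  SimpleGraph.fromEdgeSet {s(0, 1), s(0, 2), s(0, 3), s(1, 4), s(2, 5), s(3, 6)}

/-- The middle vertices of the legs. -/
def mid : Fin 3 → Fin 7 := ![1, 2, 3]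

/-- The end vertices of the legs. -/
def tip : Fin 3 → Fin 7 := ![4, 5, 6]

/-- The inner edges `{0, mid i}`. -/
def inner (i : Fin 3) : spider.edgeSet :=
  ⟨s(0, mid i), by fin_cases i <;> simp [spider, mid]⟩

/-- The outer edges `{mid i, tip i}`. -/
def outer (i : Fin 3) : spider.edgeSet :=
  ⟨s(mid i, tip i), by fin_cases i <;> simp [spider, mid, tip]⟩

theorem inner_outer_bijective : Function.Bijective (Sum.elim inner outer) := by
  constructor
  · rintro (i | i) (j | j) h
    · fin_cases i <;> fin_cases j <;> simp_all [inner, outer, mid, tip, Subtype.ext_iff]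
    · fin_cases i <;> fin_cases j <;> simp_all [inner, outer, mid, tip, Subtype.ext_iff]
    · fin_cases i <;> fin_cases j <;> simp_all [inner, outer, mid, tip, Subtype.ext_iff]
    · fin_cases i <;> fin_cases j <;> simp_all [inner, outer, mid, tip, Subtype.ext_iff]
  · rintro ⟨e, he⟩
    have he' : e ∈ ({s(0, 1), s(0, 2), s(0, 3), s(1, 4), s(2, 5), s(3, 6)} :
        Set (Sym2 (Fin 7))) := by
      rw [spider, SimpleGraph.edgeSet_fromEdgeSet] at he
      exact he.1
    simp only [Set.mem_insert_iff, Set.mem_singleton_iff] at he'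
    rcases he' with rfl | rfl | rfl | rfl | rfl | rfl
    · exact ⟨Sum.inl 0, rfl⟩
    · exact ⟨Sum.inl 1, rfl⟩
    · exact ⟨Sum.inl 2, rfl⟩
    · exact ⟨Sum.inr 0, rfl⟩
    · exact ⟨Sum.inr 1, rfl⟩
    · exact ⟨Sum.inr 2, rfl⟩

theorem sum_edges [Fintype spider.edgeSet] (f : spider.edgeSet → ℝ) :
    ∑ e, f e = (f (inner 0) + f (inner 1) + f (inner 2)) +
      (f (outer 0) + f (outer 1) + f (outer 2)) := by
  rw [← (Equiv.ofBijective _ inner_outer_bijective).sum_comp f]
  simp only [Equiv.ofBijective_apply, Fintype.sum_sum_type, Sum.elim_inl, Sum.elim_inr,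
    Fin.sum_univ_three]

/-- The event that all inner edges are closed. -/
def innerClosed : Set (EdgeConfig spider) := {ω | ∀ i, ω (inner i) = false}

/-- The event that all outer edges are closed. -/
def outerClosed : Set (EdgeConfig spider) := {ω | ∀ i, ω (outer i) = false}

theorem inner_ne_outer (i j : Fin 3) : inner i ≠ outer j := fun h => by
  have := inner_outer_bijective.1 (a₁ := Sum.inl i) (a₂ := Sum.inr j) h
  simp at this

theorem inner_injective : Function.Injective inner := fun i j h => by
  have := inner_outer_bijective.1 (a₁ := Sum.inl i) (a₂ := Sum.inl j) h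
  simpa using this

theorem outer_injective : Function.Injective outer := fun i j h => by
  have := inner_outer_bijective.1 (a₁ := Sum.inr i) (a₂ := Sum.inr j) h
  simpa using this

theorem openEdge_inner_notMem (s : State spider) (i : Fin 3) :
    (openEdge s (inner i)).2 ∉ innerClosed := fun h => by
  have := h i
  rw [openEdge_self] at this
  exact absurd this (by simp)

theorem openEdge_outer_notMem (s : State spider) (i : Fin 3) :
    (openEdge s (outer i)).2 ∉ outerClosed := fun h => by
  have := h i
  rw [openEdge_self] at this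
  exact absurd this (by simp)

theorem openEdge_outer_mem_inner (s : State spider) (i : Fin 3) :
    (openEdge s (outer i)).2 ∈ innerClosed ↔ s.2 ∈ innerClosed :=
  forall_congr' fun j => by rw [openEdge_of_ne s (inner_ne_outer j i)]

theorem openEdge_inner_mem_outer (s : State spider) (i : Fin 3) :
    (openEdge s (inner i)).2 ∈ outerClosed ↔ s.2 ∈ outerClosed :=
  forall_congr' fun j => by rw [openEdge_of_ne s (inner_ne_outer i j).symm]

/-! ### Lower bound for the probability that all inner edges are closed -/

open Classical in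
/-- Subharmonic function for `innerClosed`. -/
noncomputable def lIn (α : ℝ) (s : State spider) : ℝ :=
  if s.2 ∈ innerClosed then (if s.1 0 = true then 1 else α / 4) else 0

theorem lIn_nonneg {α : ℝ} (hα : 0 < α) (s : State spider) : 0 ≤ lIn α s := by
  rw [lIn]; split_ifs <;> positivity

theorem lIn_freeze {α : ℝ} (hα : 0 < α) (hα1 : α ≤ 1) (s : State spider)
    (C : Cluster spider s.2) : lIn α s ≤ lIn α (freezeCluster s C) := by
  classical
  rw [lIn, lIn]
  have h2 : (freezeCluster s C).2 = s.2 := rfl
  rw [h2]
  by_cases h : s.2 ∈ innerClosed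
  · rw [if_pos h, if_pos h]
    by_cases h0 : s.1 0 = true
    · have : (freezeCluster s C).1 0 = true := by
        simp only [freezeCluster]; split_ifs; exacts [rfl, h0]
      rw [if_pos h0, if_pos this]
    · rw [if_neg h0]
      split_ifs <;> linarith
  · rw [if_neg h, if_neg h]

theorem lIn_sub {α : ℝ} (hα : 0 < α) (hα1 : α ≤ 1) (s : State spider) :
    0 ≤ gen spider α (lIn α) s := by
  classical
  rw [gen_eq, sum_edges]
  have hC : ∀ C : Cluster spider s.2, 0 ≤ α * (lIn α (freezeCluster s C) - lIn α s) :=
    fun C => mul_nonneg hα.le (sub_nonneg.2 (lIn_freeze hα hα1 s C))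
  have hout : ∀ i, 0 ≤ (if CanOpen s (outer i) then lIn α (openEdge s (outer i)) - lIn α s
      else 0) := by
    intro i
    split_ifs
    · rw [lIn, lIn]
      simp only [openEdge_outer_mem_inner]
      have : (openEdge s (outer i)).1 = s.1 := rfl
      rw [this, sub_self]
    · exact le_rfl
  by_cases h : s.2 ∈ innerClosed
  · by_cases h0 : s.1 0 = true
    · -- the hub is frozen: no inner edge can open
      have hin : ∀ i, ¬ CanOpen s (inner i) := by
        rintro i ⟨-, h2⟩
        have := h2 0 (Sym2.mem_mk_left _ _)
        rw [h0] at this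
        exact absurd this (by simp)
      rw [if_neg (hin 0), if_neg (hin 1), if_neg (hin 2)]
      have := hout 0
      have := hout 1
      have := hout 2
      have : 0 ≤ ∑ C : Cluster spider s.2, α * (lIn α (freezeCluster s C) - lIn α s) :=
        Finset.sum_nonneg fun C _ => hC C
      linarith
    · have hls : lIn α s = α / 4 := by rw [lIn, if_pos h, if_neg h0]
      have hin : ∀ i, -(α / 4) ≤ (if CanOpen s (inner i) then
          lIn α (openEdge s (inner i)) - lIn α s else 0) := by
        intro i
        split_ifs
        · have := lIn_nonneg hα (openEdge s (inner i))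
          linarith
        · linarith
      have hsum : α * (1 - α / 4) ≤
          ∑ C : Cluster spider s.2, α * (lIn α (freezeCluster s C) - lIn α s) := by
        refine le_trans ?_ (Finset.single_le_sum (f := fun C : Cluster spider s.2 =>
          α * (lIn α (freezeCluster s C) - lIn α s)) (fun C _ => hC C)
          (Finset.mem_univ ((openGraph spider s.2).connectedComponentMk 0)))
        have : lIn α (freezeCluster s ((openGraph spider s.2).connectedComponentMk 0)) = 1 := by
          rw [lIn]
          have h2 : (freezeCluster s ((openGraph spider s.2).connectedComponentMk 0)).2 = s.2 :=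
            rfl
          rw [h2, if_pos h, if_pos (freezeCluster_of_mem s rfl)]
        rw [this, hls]
      have := hout 0
      have := hout 1
      have := hout 2
      have := hin 0
      have := hin 1
      have := hin 2
      nlinarith
  · have hls : lIn α s = 0 := by rw [lIn, if_neg h]
    have hin : ∀ i, 0 ≤ (if CanOpen s (inner i) then
          lIn α (openEdge s (inner i)) - lIn α s else 0) := by
      intro i
      split_ifs
      · rw [hls, sub_zero]; exact lIn_nonneg hα _
      · exact le_rfl
    have := hout 0
    have := hout 1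
    have := hout 2
    have := hin 0
    have := hin 1
    have := hin 2
    have : 0 ≤ ∑ C : Cluster spider s.2, α * (lIn α (freezeCluster s C) - lIn α s) :=
        Finset.sum_nonneg fun C _ => hC C
    linarith

theorem le_innerClosed {α : ℝ} (hα : 0 < α) (hα1 : α ≤ 1) {μ : Measure (EdgeConfig spider)}
    (hμ : IsFinalLaw spider α μ) : α / 4 ≤ μ.real innerClosed := by
  have h := le_finalLaw hα hμ innerClosed (lIn α) (lIn_sub hα hα1)
    (fun s hs h => by rw [lIn, if_pos h, if_pos (hs 0)])
    (fun s hs h => by rw [lIn, if_neg h])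
  have h1 : (initial spider).2 ∈ innerClosed := fun i => rfl
  have h0 : lIn α (initial spider) = α / 4 := by
    rw [lIn, if_pos h1, if_neg (by simp [initial])]
  rwa [h0] at h

/-! ### Lower bound for the probability that all outer edges are closed -/

/-- The constants used in the subharmonic function for `outerClosed`. -/
noncomputable def cst (α : ℝ) : ℕ → ℝ
  | 0 => α / 140
  | 1 => α / 60
  | 2 => α / 20
  | _ => α / 4

theorem cst_pos {α : ℝ} (hα : 0 < α) (k : ℕ) : 0 < cst α k := by
  rcases k with _ | _ | _ | k <;> simp only [cst] <;> positivity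

/-- The number of open inner edges. -/
def nIn (s : State spider) : ℕ :=
  (if s.2 (inner 0) = true then 1 else 0) + (if s.2 (inner 1) = true then 1 else 0) +
    (if s.2 (inner 2) = true then 1 else 0)

open Classical in
/-- Subharmonic function for `outerClosed`. -/
noncomputable def lOut (α : ℝ) (s : State spider) : ℝ :=
  if s.2 ∈ outerClosed then
    (if ∀ i, s.1 (mid i) = true then 1 else if ∀ v, s.1 v = false then cst α (nIn s) else 0)
  else 0

theorem lOut_nonneg {α : ℝ} (hα : 0 < α) (s : State spider) : 0 ≤ lOut α s := by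
  rw [lOut]
  have := cst_pos hα (nIn s)
  split_ifs <;> linarith

/-- If a non-negative function vanishes at `s` then its generator is non-negative there. -/
theorem gen_nonneg_of_eq_zero {α : ℝ} (hα : 0 < α) (u : State spider → ℝ) (hu : ∀ s, 0 ≤ u s)
    (s : State spider) (hs : u s = 0) : 0 ≤ gen spider α u s := by
  classical
  rw [gen_eq, hs]
  refine add_nonneg (Finset.sum_nonneg fun e _ => ?_) (Finset.sum_nonneg fun C _ => ?_)
  · split_ifs
    · rw [sub_zero]; exact hu _
    · exact le_rfl
  · rw [sub_zero]; exact mul_nonneg hα.le (hu _)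


theorem lOut_sub {α : ℝ} (hα : 0 < α) (hα1 : 7 * α ≤ 1) (s : State spider) :
    0 ≤ gen spider α (lOut α) s := by
  classical
  by_cases h : s.2 ∈ outerClosed
  swap
  · exact gen_nonneg_of_eq_zero hα _ (lOut_nonneg hα) s (by rw [lOut, if_neg h])
  by_cases hm : ∀ i, s.1 (mid i) = true
  · -- all middle vertices are frozen
    have hls : lOut α s = 1 := by rw [lOut, if_pos h, if_pos hm]
    have hin : ∀ i, ¬ CanOpen s (inner i) := by
      rintro i ⟨-, h2⟩
      have := h2 (mid i) (Sym2.mem_mk_right _ _)
      rw [hm i] at this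
      exact absurd this (by simp)
    have hout : ∀ i, ¬ CanOpen s (outer i) := by
      rintro i ⟨-, h2⟩
      have := h2 (mid i) (Sym2.mem_mk_left _ _)
      rw [hm i] at this
      exact absurd this (by simp)
    have hfr : ∀ C : Cluster spider s.2, lOut α (freezeCluster s C) = 1 := by
      intro C
      rw [lOut, freezeCluster_snd, if_pos h, if_pos]
      exact fun i => freezeCluster_of_frozen s C (hm i)
    rw [gen_eq, sum_edges]
    simp only [hin, hout, hfr, hls, if_false, sub_self, mul_zero, Finset.sum_const_zero, add_zero,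
      le_refl]
  by_cases hw : ∀ v, s.1 v = false
  swap
  · exact gen_nonneg_of_eq_zero hα _ (lOut_nonneg hα) s (by
      rw [lOut, if_pos h, if_neg hm, if_neg hw])
  -- all vertices are warm
  have hls : lOut α s = cst α (nIn s) := by rw [lOut, if_pos h, if_neg hm, if_pos hw]
  have hcl : α * (if nIn s = 3 then 1 else 0) - 7 * (α * lOut α s) ≤
      ∑ C : Cluster spider s.2, α * (lOut α (freezeCluster s C) - lOut α s) := by
    have h1 := sum_cluster_ge spider hα.le (lOut α) (lOut_nonneg hα) s
      ((openGraph spider s.2).connectedComponentMk 0)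
    rw [Fintype.card_fin] at h1
    refine le_trans ?_ h1
    have h2 : (if nIn s = 3 then (1 : ℝ) else 0) ≤
        lOut α (freezeCluster s ((openGraph spider s.2).connectedComponentMk 0)) := by
      split_ifs with h3
      · have hopen : ∀ i, s.2 (inner i) = true := by
          have h3' := h3
          rw [nIn] at h3'
          by_contra hcon
          push Not at hcon
          obtain ⟨i, hi⟩ := hcon
          fin_cases i
          · change s.2 (inner 0) ≠ true at hi
            rw [if_neg hi] at h3'
            split_ifs at h3' <;> omega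
          · change s.2 (inner 1) ≠ true at hi
            rw [if_neg hi] at h3'
            split_ifs at h3' <;> omega
          · change s.2 (inner 2) ≠ true at hi
            rw [if_neg hi] at h3'
            split_ifs at h3' <;> omega
        have hmem : ∀ i, mid i ∈ ((openGraph spider s.2).connectedComponentMk 0).supp := by
          intro i
          rw [SimpleGraph.ConnectedComponent.mem_supp_iff, SimpleGraph.ConnectedComponent.eq]
          refine (SimpleGraph.Adj.reachable ?_).symm
          rw [openGraph, SimpleGraph.fromEdgeSet_adj]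
          exact ⟨⟨(inner i).2, hopen i⟩, by fin_cases i <;> simp [mid]⟩
        rw [lOut, freezeCluster_snd, if_pos h, if_pos]
        exact fun i => freezeCluster_of_mem s (hmem i)
      · exact lOut_nonneg hα _
    have h3 := mul_le_mul_of_nonneg_left h2 hα.le
    push_cast
    linarith
  have hout : ∀ i, -lOut α s ≤ (if CanOpen s (outer i) then
      lOut α (openEdge s (outer i)) - lOut α s else 0) := by
    intro i
    have := lOut_nonneg hα (openEdge s (outer i))
    have := lOut_nonneg hα s
    split_ifs <;> linarith
  have hin : ∀ i, (if s.2 (inner i) = true then 0 else cst α (nIn s + 1) - lOut α s) ≤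
      (if CanOpen s (inner i) then lOut α (openEdge s (inner i)) - lOut α s else 0) := by
    intro i
    by_cases hi : s.2 (inner i) = true
    · have : ¬ CanOpen s (inner i) := fun h => by
        have := h.1
        rw [hi] at this
        exact absurd this (by simp)
      rw [if_pos hi, if_neg this]
    · have hc : CanOpen s (inner i) := ⟨by simpa using hi, fun v _ => hw v⟩
      rw [if_neg hi, if_pos hc]
      have : lOut α (openEdge s (inner i)) = cst α (nIn s + 1) := by
        rw [lOut, if_pos ((openEdge_inner_mem_outer s i).2 h), openEdge_fst, if_neg hm, if_pos hw]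
        congr 1
        rw [nIn, nIn]
        have hself := openEdge_self s (inner i)
        have hne : ∀ j, j ≠ i → (openEdge s (inner i)).2 (inner j) = s.2 (inner j) :=
          fun j hj => openEdge_of_ne s (fun h => hj (inner_injective h))
        fin_cases i
        · change (openEdge s (inner 0)).2 (inner 0) = true at hself
          change ¬ s.2 (inner 0) = true at hi
          have e1 := hne 1 (by decide)
          have e2 := hne 2 (by decide)
          change (openEdge s (inner 0)).2 (inner 1) = _ at e1
          change (openEdge s (inner 0)).2 (inner 2) = _ at e2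
          change (if (openEdge s (inner 0)).2 (inner 0) = true then 1 else 0) +
            (if (openEdge s (inner 0)).2 (inner 1) = true then 1 else 0) +
            (if (openEdge s (inner 0)).2 (inner 2) = true then 1 else 0) = _
          rw [e1, e2, if_pos hself, if_neg hi]
          omega
        · change (openEdge s (inner 1)).2 (inner 1) = true at hself
          change ¬ s.2 (inner 1) = true at hi
          have e1 := hne 0 (by decide)
          have e2 := hne 2 (by decide)
          change (openEdge s (inner 1)).2 (inner 0) = _ at e1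
          change (openEdge s (inner 1)).2 (inner 2) = _ at e2
          change (if (openEdge s (inner 1)).2 (inner 0) = true then 1 else 0) +
            (if (openEdge s (inner 1)).2 (inner 1) = true then 1 else 0) +
            (if (openEdge s (inner 1)).2 (inner 2) = true then 1 else 0) = _
          rw [e1, e2, if_pos hself, if_neg hi]
          omega
        · change (openEdge s (inner 2)).2 (inner 2) = true at hself
          change ¬ s.2 (inner 2) = true at hi
          have e1 := hne 0 (by decide)
          have e2 := hne 1 (by decide)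
          change (openEdge s (inner 2)).2 (inner 0) = _ at e1
          change (openEdge s (inner 2)).2 (inner 1) = _ at e2
          change (if (openEdge s (inner 2)).2 (inner 0) = true then 1 else 0) +
            (if (openEdge s (inner 2)).2 (inner 1) = true then 1 else 0) +
            (if (openEdge s (inner 2)).2 (inner 2) = true then 1 else 0) = _
          rw [e1, e2, if_pos hself, if_neg hi]
      rw [this]
  rw [gen_eq, sum_edges]
  have o0 := hout 0
  have o1 := hout 1
  have o2 := hout 2
  have i0 := hin 0
  have i1 := hin 1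
  have i2 := hin 2
  rw [hls] at o0 o1 o2 i0 i1 i2 hcl ⊢
  by_cases b0 : s.2 (inner 0) = true <;> by_cases b1 : s.2 (inner 1) = true <;>
    by_cases b2 : s.2 (inner 2) = true
  all_goals
    have hn : nIn s = (if s.2 (inner 0) = true then 1 else 0) +
      (if s.2 (inner 1) = true then 1 else 0) + (if s.2 (inner 2) = true then 1 else 0) := rfl
    simp only [b0, b1, b2, if_true, if_false, Nat.reduceAdd, zero_add, add_zero,
      Bool.false_eq_true] at hn i0 i1 i2
    rw [hn] at o0 o1 o2 i0 i1 i2 hcl ⊢
    norm_num [cst] at o0 o1 o2 i0 i1 i2 hcl ⊢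
    nlinarith

theorem le_outerClosed {α : ℝ} (hα : 0 < α) (hα1 : 7 * α ≤ 1) {μ : Measure (EdgeConfig spider)}
    (hμ : IsFinalLaw spider α μ) : α / 140 ≤ μ.real outerClosed := by
  have h := le_finalLaw hα hμ outerClosed (lOut α) (lOut_sub hα hα1)
    (fun s hs h => by rw [lOut, if_pos h, if_pos (fun i => hs (mid i))])
    (fun s hs h => by rw [lOut, if_neg h])
  have h1 : (initial spider).2 ∈ outerClosed := fun i => rfl
  have h2 : ∀ v, (initial spider).1 v = false := fun v => rfl
  have h0 : lOut α (initial spider) = α / 140 := by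
    rw [lOut, if_pos h1, if_neg (by simp [initial]), if_pos h2]
    simp [nIn, initial, cst]
  rwa [h0] at h

/-! ### Upper bound for the probability that all edges are closed -/

/-- The factor of the `i`-th leg in the superharmonic function: `2 α` if both vertices of the leg
are warm, `1` otherwise. -/
noncomputable def leg (α : ℝ) (f : Fin 7 → Bool) (i : Fin 3) : ℝ :=
  if f (mid i) = false ∧ f (tip i) = false then 2 * α else 1

open Classical in
/-- Superharmonic function for the event that all edges are closed. -/
noncomputable def uAll (α : ℝ) (s : State spider) : ℝ :=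
  if s.2 ∈ innerClosed ∩ outerClosed then leg α s.1 0 * leg α s.1 1 * leg α s.1 2 else 0

theorem leg_pos {α : ℝ} (hα : 0 < α) (f : Fin 7 → Bool) (i : Fin 3) : 0 < leg α f i := by
  rw [leg]; split_ifs <;> linarith

theorem leg_le_one {α : ℝ} (hα1 : 2 * α ≤ 1) (f : Fin 7 → Bool) (i : Fin 3) :
    leg α f i ≤ 1 := by
  rw [leg]; split_ifs <;> linarith

theorem leg_mono {α : ℝ} (hα1 : 2 * α ≤ 1) {f g : Fin 7 → Bool}
    (h : ∀ v, f v = true → g v = true) (i : Fin 3) : leg α f i ≤ leg α g i := by
  rw [leg, leg]
  by_cases hg : g (mid i) = false ∧ g (tip i) = false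
  · have hf : f (mid i) = false ∧ f (tip i) = false := by
      constructor
      · by_contra hcon
        have := h (mid i) (by simpa using hcon)
        rw [hg.1] at this
        exact absurd this (by simp)
      · by_contra hcon
        have := h (tip i) (by simpa using hcon)
        rw [hg.2] at this
        exact absurd this (by simp)
    rw [if_pos hg, if_pos hf]
  · rw [if_neg hg]
    split_ifs <;> linarith

theorem leg_update_of_ne (α : ℝ) (f : Fin 7 → Bool) (i : Fin 3) (v : Fin 7) (h1 : mid i ≠ v)
    (h2 : tip i ≠ v) : leg α (Function.update f v true) i = leg α f i := by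
  rw [leg, leg, Function.update_of_ne h1, Function.update_of_ne h2]

theorem leg_update_mid (α : ℝ) (f : Fin 7 → Bool) (i : Fin 3) :
    leg α (Function.update f (mid i) true) i = 1 := by
  rw [leg, if_neg]
  rintro ⟨h, -⟩
  simp at h

theorem leg_update_tip (α : ℝ) (f : Fin 7 → Bool) (i : Fin 3) :
    leg α (Function.update f (tip i) true) i = 1 := by
  rw [leg, if_neg]
  rintro ⟨-, h⟩
  simp at h

theorem notMem_of_open {s : State spider} {e : spider.edgeSet} (h : s.2 e = true) :
    s.2 ∉ innerClosed ∩ outerClosed := by
  rintro ⟨h1, h2⟩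
  obtain ⟨i | i, rfl⟩ := inner_outer_bijective.2 e
  · rw [Sum.elim_inl, h1 i] at h
    exact absurd h (by simp)
  · rw [Sum.elim_inr, h2 i] at h
    exact absurd h (by simp)

/-- If all edges are closed, the clusters are singletons. -/
theorem freeze_of_allClosed {s : State spider} (h : s.2 ∈ innerClosed ∩ outerClosed)
    (v : Fin 7) : (freezeCluster s ((openGraph spider s.2).connectedComponentMk v)).1 =
      Function.update s.1 v true := by
  have hbot : openGraph spider s.2 = ⊥ := by
    rw [openGraph]
    have : {e | ∃ h : e ∈ spider.edgeSet, s.2 ⟨e, h⟩ = true} = ∅ := by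
      rw [Set.eq_empty_iff_forall_notMem]
      rintro e ⟨he, ho⟩
      exact notMem_of_open ho h
    rw [this, SimpleGraph.fromEdgeSet_empty]
  funext w
  by_cases hw : w = v
  · subst hw
    rw [Function.update_self]
    exact freezeCluster_of_mem s rfl
  · rw [Function.update_of_ne hw]
    refine freezeCluster_of_notMem s fun hmem => hw ?_
    rw [SimpleGraph.ConnectedComponent.mem_supp_iff, SimpleGraph.ConnectedComponent.eq, hbot,
      SimpleGraph.reachable_bot] at hmem
    exact hmem

theorem uAll_nonneg {α : ℝ} (hα : 0 < α) (s : State spider) : 0 ≤ uAll α s := by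
  rw [uAll]
  have h0 := leg_pos hα s.1 0
  have h1 := leg_pos hα s.1 1
  have h2 := leg_pos hα s.1 2
  split_ifs
  · positivity
  · exact le_rfl

theorem uAll_super {α : ℝ} (hα : 0 < α) (hα1 : 2 * α ≤ 1) (s : State spider) :
    gen spider α (uAll α) s ≤ 0 := by
  classical
  by_cases h : s.2 ∈ innerClosed ∩ outerClosed
  swap
  · have hs : uAll α s = 0 := by rw [uAll, if_neg h]
    have h1 : ∀ e, uAll α (openEdge s e) = 0 := fun e => by
      rw [uAll, if_neg (notMem_of_open (openEdge_self s e))]
    have h2 : ∀ C : Cluster spider s.2, uAll α (freezeCluster s C) = 0 := fun C => by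
      rw [uAll, freezeCluster_snd, if_neg h]
    rw [gen_eq]
    simp [hs, h1, h2]
  have hs : uAll α s = leg α s.1 0 * leg α s.1 1 * leg α s.1 2 := by rw [uAll, if_pos h]
  have hopen : ∀ e, uAll α (openEdge s e) = 0 := fun e => by
    rw [uAll, if_neg (notMem_of_open (openEdge_self s e))]
  have hfr : ∀ C : Cluster spider s.2, uAll α (freezeCluster s C) =
      leg α (freezeCluster s C).1 0 * leg α (freezeCluster s C).1 1 *
        leg α (freezeCluster s C).1 2 := fun C => by
    rw [uAll, freezeCluster_snd, if_pos h]
  have hmono : ∀ C : Cluster spider s.2, 0 ≤ α * (uAll α (freezeCluster s C) - uAll α s) := by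
    intro C
    refine mul_nonneg hα.le (sub_nonneg.2 ?_)
    rw [hs, hfr]
    have hm : ∀ i, leg α s.1 i ≤ leg α (freezeCluster s C).1 i :=
      leg_mono hα1 fun v hv => freezeCluster_of_frozen s C hv
    exact mul_le_mul (mul_le_mul (hm 0) (hm 1) (leg_pos hα _ _).le (leg_pos hα _ _).le) (hm 2)
      (leg_pos hα _ _).le (mul_nonneg (leg_pos hα _ _).le (leg_pos hα _ _).le)
  have hcl : ∑ C : Cluster spider s.2, α * (uAll α (freezeCluster s C) - uAll α s) ≤
      ∑ v : Fin 7, α * (uAll α (freezeCluster s ((openGraph spider s.2).connectedComponentMk v)) -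
        uAll α s) := by
    have hsurj : Function.Surjective (openGraph spider s.2).connectedComponentMk := fun C => by
      induction C using SimpleGraph.ConnectedComponent.ind with
      | _ v => exact ⟨v, rfl⟩
    have h1 := Finset.sum_le_sum_of_subset_of_nonneg
      (f := fun v : Fin 7 => α * (uAll α (freezeCluster s
        ((openGraph spider s.2).connectedComponentMk v)) - uAll α s))
      (Finset.subset_univ (Finset.univ.image (Function.surjInv hsurj)))
      (fun v _ _ => hmono _)
    rw [Finset.sum_image (fun a _ b _ hab => Function.injective_surjInv hsurj hab)] at h1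
    simp only [Function.surjInv_eq hsurj] at h1
    exact h1
  rw [gen_eq, sum_edges]
  refine le_trans (add_le_add_right hcl _) ?_
  simp only [hopen, hfr, freeze_of_allClosed h, hs, Fin.sum_univ_seven]
  -- values of the legs after a vertex has been frozen
  have e0 : ∀ i, leg α (Function.update s.1 0 true) i = leg α s.1 i := fun i =>
    leg_update_of_ne α s.1 i 0 (by fin_cases i <;> decide) (by fin_cases i <;> decide)
  have e1 : leg α (Function.update s.1 1 true) 0 = 1 := leg_update_mid α s.1 0
  have e1' : leg α (Function.update s.1 1 true) 1 = leg α s.1 1 :=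
    leg_update_of_ne α s.1 1 1 (by decide) (by decide)
  have e1'' : leg α (Function.update s.1 1 true) 2 = leg α s.1 2 :=
    leg_update_of_ne α s.1 2 1 (by decide) (by decide)
  have e2 : leg α (Function.update s.1 2 true) 1 = 1 := leg_update_mid α s.1 1
  have e2' : leg α (Function.update s.1 2 true) 0 = leg α s.1 0 :=
    leg_update_of_ne α s.1 0 2 (by decide) (by decide)
  have e2'' : leg α (Function.update s.1 2 true) 2 = leg α s.1 2 :=
    leg_update_of_ne α s.1 2 2 (by decide) (by decide)
  have e3 : leg α (Function.update s.1 3 true) 2 = 1 := leg_update_mid α s.1 2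
  have e3' : leg α (Function.update s.1 3 true) 0 = leg α s.1 0 :=
    leg_update_of_ne α s.1 0 3 (by decide) (by decide)
  have e3'' : leg α (Function.update s.1 3 true) 1 = leg α s.1 1 :=
    leg_update_of_ne α s.1 1 3 (by decide) (by decide)
  have e4 : leg α (Function.update s.1 4 true) 0 = 1 := leg_update_tip α s.1 0
  have e4' : leg α (Function.update s.1 4 true) 1 = leg α s.1 1 :=
    leg_update_of_ne α s.1 1 4 (by decide) (by decide)
  have e4'' : leg α (Function.update s.1 4 true) 2 = leg α s.1 2 :=
    leg_update_of_ne α s.1 2 4 (by decide) (by decide)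
  have e5 : leg α (Function.update s.1 5 true) 1 = 1 := leg_update_tip α s.1 1
  have e5' : leg α (Function.update s.1 5 true) 0 = leg α s.1 0 :=
    leg_update_of_ne α s.1 0 5 (by decide) (by decide)
  have e5'' : leg α (Function.update s.1 5 true) 2 = leg α s.1 2 :=
    leg_update_of_ne α s.1 2 5 (by decide) (by decide)
  have e6 : leg α (Function.update s.1 6 true) 2 = 1 := leg_update_tip α s.1 2
  have e6' : leg α (Function.update s.1 6 true) 0 = leg α s.1 0 :=
    leg_update_of_ne α s.1 0 6 (by decide) (by decide)
  have e6'' : leg α (Function.update s.1 6 true) 1 = leg α s.1 1 :=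
    leg_update_of_ne α s.1 1 6 (by decide) (by decide)
  rw [e0, e0, e0, e1, e1', e1'', e2, e2', e2'', e3, e3', e3'', e4, e4', e4'', e5, e5', e5'',
    e6, e6', e6'']
  have key : ∀ (i : Fin 3) (P : ℝ), 0 ≤ P →
      (if CanOpen s (outer i) then 0 - leg α s.1 i * P else 0) +
        2 * (α * (P - leg α s.1 i * P)) ≤ 0 := by
    intro i P hP
    by_cases hl : s.1 (mid i) = false ∧ s.1 (tip i) = false
    · have hc : CanOpen s (outer i) := by
        refine ⟨h.2 i, fun v hv => ?_⟩
        have hv' : v ∈ s(mid i, tip i) := hv
        rw [Sym2.mem_iff] at hv'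
        rcases hv' with rfl | rfl
        exacts [hl.1, hl.2]
      rw [if_pos hc, leg, if_pos hl]
      nlinarith [mul_nonneg (mul_nonneg hα.le hα.le) hP]
    · rw [leg, if_neg hl, one_mul, sub_self, mul_zero, mul_zero, add_zero]
      split_ifs <;> linarith
  have hx0 := leg_pos hα s.1 0
  have hx1 := leg_pos hα s.1 1
  have hx2 := leg_pos hα s.1 2
  have k0 := key 0 (leg α s.1 1 * leg α s.1 2) (by positivity)
  have k1 := key 1 (leg α s.1 0 * leg α s.1 2) (by positivity)
  have k2 := key 2 (leg α s.1 0 * leg α s.1 1) (by positivity)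
  have r0 : leg α s.1 0 * (leg α s.1 1 * leg α s.1 2) =
      leg α s.1 0 * leg α s.1 1 * leg α s.1 2 := by ring
  have r1 : leg α s.1 1 * (leg α s.1 0 * leg α s.1 2) =
      leg α s.1 0 * leg α s.1 1 * leg α s.1 2 := by ring
  have r2 : leg α s.1 2 * (leg α s.1 0 * leg α s.1 1) =
      leg α s.1 0 * leg α s.1 1 * leg α s.1 2 := by ring
  rw [r0] at k0
  rw [r1] at k1
  rw [r2] at k2
  have hX : 0 < leg α s.1 0 * leg α s.1 1 * leg α s.1 2 := by positivity
  have hin : ∀ i, (if CanOpen s (inner i) then
      0 - leg α s.1 0 * leg α s.1 1 * leg α s.1 2 else 0) ≤ 0 := by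
    intro i
    split_ifs <;> linarith
  have i0 := hin 0
  have i1 := hin 1
  have i2 := hin 2
  linarith

theorem allClosed_le {α : ℝ} (hα : 0 < α) (hα1 : 2 * α ≤ 1) {μ : Measure (EdgeConfig spider)}
    (hμ : IsFinalLaw spider α μ) : μ.real (innerClosed ∩ outerClosed) ≤ 8 * α ^ 3 := by
  have h := finalLaw_le hα hμ (innerClosed ∩ outerClosed) (uAll α) (uAll_super hα hα1)
    (fun s hs h => by
      rw [uAll, if_pos h]
      have : ∀ i, leg α s.1 i = 1 := fun i => by
        rw [leg, if_neg]
        rintro ⟨h1, -⟩
        rw [hs (mid i)] at h1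
        exact absurd h1 (by simp)
      rw [this, this, this]
      norm_num)
    (fun s hs h => by rw [uAll, if_neg h])
  have h1 : (initial spider).2 ∈ innerClosed ∩ outerClosed := ⟨fun i => rfl, fun i => rfl⟩
  have h0 : uAll α (initial spider) = 8 * α ^ 3 := by
    rw [uAll, if_pos h1]
    have : ∀ i, leg α (initial spider).1 i = 2 * α := fun i => by
      rw [leg, if_pos ⟨rfl, rfl⟩]
    rw [this, this, this]
    ring
  rwa [h0] at h

end Spider

/-! ## The result -/

/-- For every rate `0 < α ≤ 1 / 5000`, the law of the final edge configuration of percolation with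
constant freezing at rate `α` on the spider with three legs of length two exists and does not
satisfy the FKG inequality. -/
theorem result : ∃ G : SimpleGraph (Fin 7), ∀ α : ℝ, 0 < α → α ≤ 1 / 5000 →
    ∃ μ : Measure (EdgeConfig G), IsFinalLaw G α μ ∧
      ∃ A B : Set (EdgeConfig G), IsUpperSet A ∧ IsUpperSet B ∧ μ (A ∩ B) < μ A * μ B := by
  refine ⟨spider, fun α hα hα1 => ?_⟩
  obtain ⟨μ, hμ⟩ := exists_finalLaw spider hα
  have := hμ.1
  refine ⟨μ, hμ, innerClosedᶜ, outerClosedᶜ, ?_, ?_, ?_⟩
  · intro ω ω' hle hω hω'
    refine hω fun i => ?_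
    have h1 := hle (inner i)
    rw [hω' i] at h1
    exact le_antisymm h1 (Bool.false_le _)
  · intro ω ω' hle hω hω'
    refine hω fun i => ?_
    have h1 := hle (outer i)
    rw [hω' i] at h1
    exact le_antisymm h1 (Bool.false_le _)
  · have ha := le_innerClosed hα (by linarith) hμ
    have hb := le_outerClosed hα (by linarith) hμ
    have hc := allClosed_le hα (by linarith) hμ
    have hlt : μ.real (innerClosedᶜ ∩ outerClosedᶜ) <
        μ.real innerClosedᶜ * μ.real outerClosedᶜ := by
      rw [← Set.compl_union, measureReal_compl (MeasurableSet.of_discrete),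
        measureReal_compl (MeasurableSet.of_discrete),
        measureReal_compl (MeasurableSet.of_discrete), probReal_univ]
      have hu := measureReal_union_add_inter (μ := μ) (s := innerClosed)
        (t := outerClosed) (MeasurableSet.of_discrete)
      have hab : 8 * α ^ 3 < μ.real innerClosed * μ.real outerClosed := by
        calc 8 * α ^ 3 < α / 4 * (α / 140) := by
              have h2 : 0 < α ^ 2 := by positivity
              nlinarith
          _ ≤ _ := mul_le_mul ha hb (by positivity) (by linarith)
      nlinarith
    rw [measureReal_def, measureReal_def, measureReal_def, ← ENNReal.toReal_mul] at hlt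
    exact (ENNReal.toReal_lt_toReal (measure_ne_top _ _)
      (ENNReal.mul_ne_top (measure_ne_top _ _) (measure_ne_top _ _))).1 hlt

end Pool.Agent.Results.MP_b6680e_pr.FkgFails
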